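import Pool.Agent.H255R.MR.Map

/-!
# The l-adic regulators of products of regular surfaces and of products of curves
-/

open CategoryTheory AlgebraicGeometry

universe u v w x

namespace Pool.Agent.Results.MP_76188c_nt.RegularSurfaces

open Pool.Agent.H914 Pool.Agent.H914.VarClass Pool.Agent.H914.VarClass.Obj Pool.Agent.W492.BB
  Pool.Agent.W550.Corr Pool.Agent.TH133 Pool.Agent.H255R.HR Pool.Agent.H255R.MR

/-- The `ℓ`-adic regulator `φ` of the variety `X` is injective, with image all semistable classes, in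
the weights `j ≤ R` (the classes of weight `j` are those of the families `𝓜` and `𝓓`). -/
def RegulatorOntoSemistable {k : Type u} [Field k] {𝒱 : VarClass k} {C : TheoryData.{u, v, 0} 𝒱 ℚ}
    {M D : ModData.{u, v, x} C} (φ : ∀ X, M.A X → D.A X) (𝓜 : Fam M) (𝓓 : Fam D) (R : ℤ)
    (X : 𝒱.Obj) : Prop :=
  InjUpTo φ 𝓜 R X ∧ SurjUpTo φ 𝓜 𝓓 R X

/-- Consider the smooth projective varieties `X` over `ℚ̄`, and fix an integer `m = 2 j - i`. Let
`M(X)` be the sum over `j` of the direct limits of the groups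
`H^{2j-m}_M(X_K, ℚ(j))_{hom} ⊗ ℚ_ℓ`, over the number fields `K` and the models `X_K` of `X`, let `D(X)`
be the sum of the direct limits of the groups `H^1_{st}(G_K, H^{2j-m-1}(X, ℚ_ℓ(j)))`, and let `φ` be the
`ℓ`-adic regulator. (Both sides satisfy Galois descent; therefore `φ` is bijective in the weight `j`
if and only if the conjecture holds for all models of `X` over number fields, with `i = 2 j - m`.)
More generally, let `φ : M → D` be a transformation of module theories over the Chow groups, where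
`M` and `D` are graded by weights.

Let `𝒞` be a class of curves with `HasGalQuotients` (for example all curves, or one hyperelliptic
curve). For all varieties `U` and all `R` and `N` the following statements are equivalent.

1. The conjecture, in the weights at most `R`, holds for the varieties `U × A` and `U × A × S`,
where `A` is a product of at most `N` regular surfaces dominated by products of two curves in `𝒞`,
and `S` is a curve in `𝒞`.
2. The same without the condition that the surfaces be regular.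
3. The conjecture, in the weights at most `R`, holds for `U × W`, where `W` is a product of at most
`2 N + 1` curves in `𝒞`.
4. The conjecture, in the weights at most `R`, holds for all varieties which are dominated by
varieties `U × W` as in 3. -/
theorem result {k : Type u} [Field k] {𝒱 : VarClass k} (C : TheoryData.{u, v, 0} 𝒱 ℚ)
    [IsChowProj C] {F : Type w} [Field F] [CharZero F] (H : WeilTheoryData.{u, v, w} C F)
    [IsWeilProj H] (M D : ModData.{u, v, x} C) (hM : IsModTheory M) (hD : IsModTheory D)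
    (φ : ∀ X, M.A X → D.A X) (hφ : IsTransformation M D φ) (𝓜 : Fam M) (𝓓 : Fam D)
    (𝒞 : 𝒱.Obj → Prop) (hG : HasGalQuotients.{u, v, w, x} H 𝒞) (U : 𝒱.Obj) (R : ℤ) (N : ℕ) :
    List.TFAE [
      ∀ m ≤ N, ∀ A : 𝒱.Obj, IsProdOf U (IsRegDominated.{u, v, w, x} H 𝒞) m A →
        RegulatorOntoSemistable φ 𝓜 𝓓 R A ∧ ∀ S : 𝒱.Obj, 𝒞 S → RegulatorOntoSemistable φ 𝓜 𝓓 R (A.prod S),
      ∀ m ≤ N, ∀ A : 𝒱.Obj, IsProdOf U (IsDominated.{u, v, x} C 𝒞) m A →
        RegulatorOntoSemistable φ 𝓜 𝓓 R A ∧ ∀ S : 𝒱.Obj, 𝒞 S → RegulatorOntoSemistable φ 𝓜 𝓓 R (A.prod S),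
      ∀ l ≤ 2 * N + 1, ∀ W : 𝒱.Obj, IsProdOf U 𝒞 l W → RegulatorOntoSemistable φ 𝓜 𝓓 R W,
      ∀ l ≤ 2 * N + 1, ∀ W X : 𝒱.Obj, IsProdOf U 𝒞 l W → IsDominatedBy C W X → RegulatorOntoSemistable φ 𝓜 𝓓 R X] :=
  tfaeM (M := M) (M' := D) (𝓜 := kerFam hφ 𝓜) (𝓝 := zeroFam M) (𝓜' := 𝓓) (𝓝' := imFam hφ 𝓜)
    hG U R N _ fun X => and_congr (good_inj hφ 𝓜 R X).symm (good_surj hφ 𝓜 𝓓 R X).symm

end Pool.Agent.Results.MP_76188c_nt.RegularSurfaces
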